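import Mathlib

/-!
# Non-perfect (claw, `4K₁`, bridge)-free graphs have unbounded clique-width
-/

namespace Pool.Agent.Results.MP_0c56be_co.UnboundedCliqueWidth

open SimpleGraph

/-- `Built k G l`: the graph `G` with the labelling `l` of its vertices by `k` labels can be built by
creating single labelled vertices, taking disjoint unions, relabelling all vertices of one label and
adding all edges between two different labels; graphs are considered up to isomorphism. -/
inductive Built (k : ℕ) : {V : Type} → SimpleGraph V → (V → Fin k) → Prop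
  | single (i : Fin k) : Built k (⊥ : SimpleGraph Unit) (fun _ => i)
  | union {V W : Type} {G : SimpleGraph V} {H : SimpleGraph W} {l : V → Fin k} {m : W → Fin k} :
      Built k G l → Built k H m → Built k (G ⊕g H) (Sum.elim l m)
  | relabel {V : Type} {G : SimpleGraph V} {l : V → Fin k} (i j : Fin k) :
      Built k G l → Built k G (fun v => if l v = i then j else l v)
  | join {V : Type} {G : SimpleGraph V} {l : V → Fin k} (i j : Fin k) (hij : i ≠ j) :
      Built k G l →
      Built k (G ⊔ SimpleGraph.fromRel fun u v => l u = i ∧ l v = j) l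
  | iso {V W : Type} {G : SimpleGraph V} {H : SimpleGraph W} {l : V → Fin k} (e : G ≃g H) :
      Built k G l → Built k H (l ∘ e.symm)

/-- `G` has clique-width at most `k`. -/
def CliqueWidthAtMost {V : Type} (G : SimpleGraph V) (k : ℕ) : Prop :=
  ∃ l : V → Fin k, Built k G l

/-- the claw `K_{1,3}` -/
def claw : SimpleGraph (Fin 4) := SimpleGraph.fromRel fun u v => u = 0 ∧ v ≠ 0

/-- the bridge: two copies of `K₄` sharing an edge; `a = 0`, `b = 1`, `x₁ y₁ = 2 3`, `x₂ y₂ = 4 5` -/
def bridge : SimpleGraph (Fin 6) :=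
  SimpleGraph.fromRel fun u v => u = 0 ∨ u = 1 ∨ (u = 2 ∧ v = 3) ∨ (u = 4 ∧ v = 5)

/-- `G` is perfect: `χ(H) = ω(H)` for every induced subgraph `H`. -/
def IsPerfect {V : Type} (G : SimpleGraph V) : Prop :=
  ∀ s : Set V, (G.induce s).chromaticNumber = ((G.induce s).cliqueNum : ℕ∞)

/-! ## Balanced cuts -/

theorem cut {k : ℕ} {V : Type} {G : SimpleGraph V} {l : V → Fin k} (h : Built k G l) (M : ℕ)
    (hM : 1 ≤ M) : ∀ B : Finset V, M ≤ B.card →
    ∃ (X : Set V) (c : V → Fin k), M ≤ (X ∩ B).ncard ∧ (X ∩ B).ncard ≤ 2 * M ∧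
      (∀ x ∈ X, ∀ y ∈ X, c x = c y → l x = l y) ∧
      ∀ x ∈ X, ∀ y ∈ X, c x = c y → ∀ z ∉ X, (G.Adj x z ↔ G.Adj y z) := by
  classical
  induction h with
  | single i =>
    intro B hB
    refine ⟨Set.univ, fun _ => i, ?_, ?_, by simp, by simp⟩
    · simpa [Set.ncard_coe_finset] using hB
    · have : B.card ≤ 1 := by simpa using Finset.card_le_univ B
      simp only [Set.univ_inter, Set.ncard_coe_finset]
      omega
  | @union V W G H l m _ _ ih1 ih2 =>
    intro B hB
    by_cases hB2 : B.card ≤ 2 * M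
    · refine ⟨Set.univ, Sum.elim l m, ?_, ?_, fun _ _ _ _ h => h, by simp⟩
      · simpa [Set.ncard_coe_finset] using hB
      · simpa [Set.ncard_coe_finset] using hB2
    · push Not at hB2
      have hsum : B.toLeft.card + B.toRight.card = B.card := Finset.card_toLeft_add_card_toRight
      rcases Nat.lt_or_ge B.toLeft.card M with hL | hL
      · have hR : M ≤ B.toRight.card := by omega
        obtain ⟨X, c, h1, h2, h3, h4⟩ := ih2 B.toRight hR
        have hXB : (Sum.inr '' X ∩ (B : Set (V ⊕ W))) = Sum.inr '' (X ∩ (B.toRight : Set W)) := by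
          ext x
          simp only [Set.mem_inter_iff, Set.mem_image, Finset.mem_coe, Finset.mem_toRight]
          constructor
          · rintro ⟨⟨y, hy, rfl⟩, hB⟩
            exact ⟨y, ⟨hy, hB⟩, rfl⟩
          · rintro ⟨y, ⟨hy, hB⟩, rfl⟩
            exact ⟨⟨y, hy, rfl⟩, hB⟩
        have hnc : (Sum.inr '' X ∩ (B : Set (V ⊕ W))).ncard = (X ∩ (B.toRight : Set W)).ncard := by
          rw [hXB]; exact Set.ncard_image_of_injective _ Sum.inr_injective
        obtain ⟨x0, hx0⟩ : (X ∩ (B.toRight : Set W)).Nonempty := by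
          by_contra hne
          rw [Set.not_nonempty_iff_eq_empty] at hne
          rw [hne] at h1
          simp at h1
          omega
        refine ⟨Sum.inr '' X, Sum.elim (fun _ => c x0) c, by rw [hnc]; exact h1,
          by rw [hnc]; exact h2, ?_, ?_⟩
        · rintro _ ⟨x, hx, rfl⟩ _ ⟨y, hy, rfl⟩ hxy
          exact h3 x hx y hy hxy
        · rintro _ ⟨x, hx, rfl⟩ _ ⟨y, hy, rfl⟩ hxy z hz
          rcases z with z | z
          · simp
          · simp only [SimpleGraph.sum_adj_inr]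
            exact h4 x hx y hy hxy z (fun h => hz ⟨z, h, rfl⟩)
      · obtain ⟨X, c, h1, h2, h3, h4⟩ := ih1 B.toLeft hL
        have hXB : (Sum.inl '' X ∩ (B : Set (V ⊕ W))) = Sum.inl '' (X ∩ (B.toLeft : Set V)) := by
          ext x
          simp only [Set.mem_inter_iff, Set.mem_image, Finset.mem_coe, Finset.mem_toLeft]
          constructor
          · rintro ⟨⟨y, hy, rfl⟩, hB⟩
            exact ⟨y, ⟨hy, hB⟩, rfl⟩
          · rintro ⟨y, ⟨hy, hB⟩, rfl⟩
            exact ⟨⟨y, hy, rfl⟩, hB⟩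
        have hnc : (Sum.inl '' X ∩ (B : Set (V ⊕ W))).ncard = (X ∩ (B.toLeft : Set V)).ncard := by
          rw [hXB]; exact Set.ncard_image_of_injective _ Sum.inl_injective
        obtain ⟨x0, hx0⟩ : (X ∩ (B.toLeft : Set V)).Nonempty := by
          by_contra hne
          rw [Set.not_nonempty_iff_eq_empty] at hne
          rw [hne] at h1
          simp at h1
          omega
        refine ⟨Sum.inl '' X, Sum.elim c (fun _ => c x0), by rw [hnc]; exact h1,
          by rw [hnc]; exact h2, ?_, ?_⟩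
        · rintro _ ⟨x, hx, rfl⟩ _ ⟨y, hy, rfl⟩ hxy
          exact h3 x hx y hy hxy
        · rintro _ ⟨x, hx, rfl⟩ _ ⟨y, hy, rfl⟩ hxy z hz
          rcases z with z | z
          · simp only [SimpleGraph.sum_adj_inl]
            exact h4 x hx y hy hxy z (fun h => hz ⟨z, h, rfl⟩)
          · simp
  | @relabel V G l i j _ ih =>
    intro B hB
    obtain ⟨X, c, h1, h2, h3, h4⟩ := ih B hB
    refine ⟨X, c, h1, h2, ?_, h4⟩
    intro x hx y hy hxy
    simp only [h3 x hx y hy hxy]
  | @join V G l i j hij _ ih =>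
    intro B hB
    obtain ⟨X, c, h1, h2, h3, h4⟩ := ih B hB
    refine ⟨X, c, h1, h2, h3, ?_⟩
    intro x hx y hy hxy z hz
    have hxz : x ≠ z := fun h => hz (h ▸ hx)
    have hyz : y ≠ z := fun h => hz (h ▸ hy)
    have hl := h3 x hx y hy hxy
    have hG := h4 x hx y hy hxy z hz
    simp only [SimpleGraph.sup_adj, SimpleGraph.fromRel_adj, hG, hl, hxz, hyz, ne_eq,
      not_false_eq_true, true_and]
  | @iso V W G H l e _ ih =>
    intro B hB
    obtain ⟨X, c, h1, h2, h3, h4⟩ := ih (B.map e.symm.toEquiv.toEmbedding) (by simpa using hB)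
    have hXB : (e.symm ⁻¹' X ∩ (B : Set W)) =
        e '' (X ∩ ((B.map e.symm.toEquiv.toEmbedding : Finset V) : Set V)) := by
      ext x
      simp only [Set.mem_inter_iff, Set.mem_preimage, Finset.mem_coe, Set.mem_image,
        Finset.coe_map]
      constructor
      · rintro ⟨hx, hB⟩
        exact ⟨e.symm x, ⟨hx, x, hB, rfl⟩, by simp⟩
      · rintro ⟨y, ⟨hy, w, hw, hwy⟩, rfl⟩
        have hwy' : e.symm w = y := hwy
        refine ⟨by simpa using hy, ?_⟩
        rw [← hwy']
        simpa using hw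
    have hnc : (e.symm ⁻¹' X ∩ (B : Set W)).ncard =
        (X ∩ ((B.map e.symm.toEquiv.toEmbedding : Finset V) : Set V)).ncard := by
      rw [hXB]; exact Set.ncard_image_of_injective _ e.injective
    refine ⟨e.symm ⁻¹' X, c ∘ e.symm, by rw [hnc]; exact h1, by rw [hnc]; exact h2, ?_, ?_⟩
    · intro x hx y hy hxy
      exact h3 _ hx _ hy hxy
    · intro x hx y hy hxy z hz
      have := h4 _ hx _ hy hxy (e.symm z) hz
      rwa [e.symm.map_adj_iff, e.symm.map_adj_iff] at this


/-! ## The graphs -/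

/-- the vertices: a `5`-cycle, the branch vertices, the subdivision vertices -/
abbrev Vx (n : ℕ) : Type := Fin 5 ⊕ (Fin n ⊕ Fin n × Fin n)

/-- the disjoint union of a `5`-cycle and of `K_n` with every edge subdivided once (and some
isolated vertices) -/
def D (n : ℕ) : SimpleGraph (Vx n) where
  Adj x y :=
    match x, y with
    | .inl i, .inl j => j = i + 1 ∨ i = j + 1
    | .inr (.inl i), .inr (.inr (p, q)) => p < q ∧ (i = p ∨ i = q)
    | .inr (.inr (p, q)), .inr (.inl i) => p < q ∧ (i = p ∨ i = q)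
    | _, _ => False
  symm := ⟨by
    rintro (i | i | ⟨p, q⟩) (j | j | ⟨p', q'⟩) h
    · exact h.symm
    all_goals exact h⟩
  loopless := ⟨by
    rintro (i | i | ⟨p, q⟩) h
    · have h' : i = i + 1 ∨ i = i + 1 := h
      clear h
      revert i
      decide
    all_goals exact h⟩

theorem D_triangle {n : ℕ} {x y z : Vx n} (h1 : (D n).Adj x y) (h2 : (D n).Adj y z)
    (h3 : (D n).Adj x z) : False := by
  rcases x with i | i | ⟨p, q⟩ <;> rcases y with j | j | ⟨p', q'⟩ <;>
    rcases z with m | m | ⟨p'', q''⟩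
  · have h1' : j = i + 1 ∨ i = j + 1 := h1
    have h2' : m = j + 1 ∨ j = m + 1 := h2
    have h3' : m = i + 1 ∨ i = m + 1 := h3
    clear h1 h2 h3
    revert i j m
    decide
  all_goals first | exact h1 | exact h2 | exact h3

theorem D_square {n : ℕ} {x y z w : Vx n} (h1 : (D n).Adj x y) (h2 : (D n).Adj y z)
    (h3 : (D n).Adj z w) (h4 : (D n).Adj w x) (hxz : x ≠ z) (hyw : y ≠ w) : False := by
  rcases x with i | i | ⟨p, q⟩ <;> rcases y with j | j | ⟨p', q'⟩ <;>
    rcases z with m | m | ⟨p'', q''⟩ <;> rcases w with r | r | ⟨s, t⟩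
  · have h1' : j = i + 1 ∨ i = j + 1 := h1
    have h2' : m = j + 1 ∨ j = m + 1 := h2
    have h3' : r = m + 1 ∨ m = r + 1 := h3
    have h4' : i = r + 1 ∨ r = i + 1 := h4
    have h5' : i ≠ m := fun h => hxz (by rw [h])
    have h6' : j ≠ r := fun h => hyw (by rw [h])
    clear h1 h2 h3 h4 hxz hyw
    revert i j m r
    decide
  all_goals first | exact h1 | exact h2 | exact h3 | exact h4 | skip
  · obtain ⟨a1, a2⟩ : p' < q' ∧ (i = p' ∨ i = q') := h1
    obtain ⟨b1, b2⟩ : p' < q' ∧ (m = p' ∨ m = q') := h2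
    obtain ⟨c1, c2⟩ : s < t ∧ (m = s ∨ m = t) := h3
    obtain ⟨d1, d2⟩ : s < t ∧ (i = s ∨ i = t) := h4
    have e1 : i ≠ m := fun h => hxz (by rw [h])
    apply hyw
    have : p' = s ∧ q' = t := by
      rw [Fin.lt_def] at a1 c1
      rw [ne_eq, Fin.ext_iff] at e1
      simp only [Fin.ext_iff] at a2 b2 c2 d2 ⊢
      omega
    rw [this.1, this.2]
  · obtain ⟨a1, a2⟩ : p < q ∧ (j = p ∨ j = q) := h1
    obtain ⟨b1, b2⟩ : p'' < q'' ∧ (j = p'' ∨ j = q'') := h2
    obtain ⟨c1, c2⟩ : p'' < q'' ∧ (r = p'' ∨ r = q'') := h3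
    obtain ⟨d1, d2⟩ : p < q ∧ (r = p ∨ r = q) := h4
    have e1 : j ≠ r := fun h => hyw (by rw [h])
    apply hxz
    have : p = p'' ∧ q = q'' := by
      rw [Fin.lt_def] at a1 c1
      rw [ne_eq, Fin.ext_iff] at e1
      simp only [Fin.ext_iff] at a2 b2 c2 d2 ⊢
      omega
    rw [this.1, this.2]

/-- the graphs of the theorem -/
def Gn (n : ℕ) : SimpleGraph (Vx n) := (D n)ᶜ

/-- no three pairwise non-adjacent vertices -/
theorem Gn_three {n : ℕ} {x y z : Vx n} (hxy : x ≠ y) (hyz : y ≠ z) (hxz : x ≠ z) :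
    (Gn n).Adj x y ∨ (Gn n).Adj y z ∨ (Gn n).Adj x z := by
  by_contra hcon
  push Not at hcon
  obtain ⟨h1, h2, h3⟩ := hcon
  simp only [Gn, SimpleGraph.compl_adj, not_and, not_not] at h1 h2 h3
  exact D_triangle (h1 hxy) (h2 hyz) (h3 hxz)

theorem D_of_not {n : ℕ} {x y : Vx n} (hxy : x ≠ y) (h : ¬ (Gn n).Adj x y) : (D n).Adj x y := by
  simp only [Gn, SimpleGraph.compl_adj, not_and, not_not] at h
  exact h hxy

theorem Gn_claw (n : ℕ) : ¬ claw.IsIndContained (Gn n) := by
  rintro ⟨f⟩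
  have hne : ∀ i j : Fin 4, i ≠ j → f i ≠ f j := fun i j h h' => h (f.injective h')
  rcases Gn_three (hne 1 2 (by decide)) (hne 2 3 (by decide)) (hne 1 3 (by decide)) with h | h | h
  all_goals
    rw [f.map_adj_iff] at h
    revert h
    simp [claw]

theorem Gn_fourK1 (n : ℕ) : ¬ (⊥ : SimpleGraph (Fin 4)).IsIndContained (Gn n) := by
  rintro ⟨f⟩
  have hne : ∀ i j : Fin 4, i ≠ j → f i ≠ f j := fun i j h h' => h (f.injective h')
  rcases Gn_three (hne 1 2 (by decide)) (hne 2 3 (by decide)) (hne 1 3 (by decide)) with h | h | h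
  all_goals
    rw [f.map_adj_iff] at h
    exact h

theorem Gn_bridge (n : ℕ) : ¬ bridge.IsIndContained (Gn n) := by
  rintro ⟨f⟩
  have hne : ∀ i j : Fin 6, i ≠ j → f i ≠ f j := fun i j h h' => h (f.injective h')
  have key : ∀ i j : Fin 6, i ≠ j → ¬ bridge.Adj i j → (D n).Adj (f i) (f j) := by
    intro i j hij h
    refine D_of_not (hne i j hij) ?_
    rw [f.map_adj_iff]
    exact h
  exact D_square (key 2 4 (by decide) (by simp [bridge])) (key 4 3 (by decide) (by simp [bridge]))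
    (key 3 5 (by decide) (by simp [bridge])) (key 5 2 (by decide) (by simp [bridge]))
    (hne 2 3 (by decide)) (hne 4 5 (by decide))

theorem Gn_not_perfect (n : ℕ) : ¬ IsPerfect (Gn n) := by
  classical
  intro h
  have h1 := h (Set.range Sum.inl)
  -- the clique number is at most two
  have hω : ((Gn n).induce (Set.range (Sum.inl : Fin 5 → Vx n))).cliqueNum ≤ 2 := by
    obtain ⟨s, hs⟩ := ((Gn n).induce (Set.range (Sum.inl : Fin 5 → Vx n))).exists_isNClique_cliqueNum
    rw [← hs.card_eq]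
    by_contra hcon
    push Not at hcon
    obtain ⟨⟨_, i, rfl⟩, hi, ⟨_, j, rfl⟩, hj, ⟨_, m, rfl⟩, hm, hij, him, hjm⟩ :=
      Finset.two_lt_card.1 hcon
    have a1 := hs.isClique hi hj hij
    have a2 := hs.isClique hi hm him
    have a3 := hs.isClique hj hm hjm
    simp only [Gn, SimpleGraph.comap_adj, SimpleGraph.compl_adj, Function.Embedding.subtype_apply]
      at a1 a2 a3
    have b1 : i ≠ j ∧ ¬ (j = i + 1 ∨ i = j + 1) := ⟨fun h => a1.1 (by rw [h]), a1.2⟩
    have b2 : i ≠ m ∧ ¬ (m = i + 1 ∨ i = m + 1) := ⟨fun h => a2.1 (by rw [h]), a2.2⟩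
    have b3 : j ≠ m ∧ ¬ (m = j + 1 ∨ j = m + 1) := ⟨fun h => a3.1 (by rw [h]), a3.2⟩
    clear a1 a2 a3 hi hj hm hij him hjm
    revert i j m
    decide
  have hcol : ((Gn n).induce (Set.range (Sum.inl : Fin 5 → Vx n))).Colorable 2 := by
    rw [← SimpleGraph.chromaticNumber_le_iff_colorable, h1]
    exact_mod_cast hω
  obtain ⟨c⟩ := hcol
  have hc : ∀ i j : Fin 5, i ≠ j → ¬ (j = i + 1 ∨ i = j + 1) →
      c ⟨.inl i, i, rfl⟩ ≠ c ⟨.inl j, j, rfl⟩ := by
    intro i j hij hn
    apply c.valid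
    simp only [Gn, SimpleGraph.comap_adj, SimpleGraph.compl_adj, Function.Embedding.subtype_apply]
    exact ⟨fun h => hij (Sum.inl.inj h), hn⟩
  have hdec : ∀ g : Fin 5 → Fin 2, ∃ i j : Fin 5, i ≠ j ∧ ¬ (j = i + 1 ∨ i = j + 1) ∧ g i = g j := by
    decide
  obtain ⟨i, j, h1, h2, h3⟩ := hdec fun i => c ⟨.inl i, i, rfl⟩
  exact hc i j h1 h2 h3

/-- the clique-width grows -/
theorem Gn_width (k : ℕ) : ¬ CliqueWidthAtMost (Gn (3 * k + 3)) k := by
  classical
  rintro ⟨l, hl⟩
  let n := 3 * k + 3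
  let β : Fin n → Vx n := fun i => .inr (.inl i)
  have hβ : Function.Injective β := fun i j h => Sum.inl.inj (Sum.inr.inj h)
  obtain ⟨X, c, h1, h2, -, h4⟩ := cut hl (k + 1) (by omega) (Finset.univ.map ⟨β, hβ⟩) (by
    simp [n]; omega)
  -- adjacency in the complement
  have h4' : ∀ x ∈ X, ∀ y ∈ X, c x = c y → ∀ z ∉ X, ((D n).Adj x z ↔ (D n).Adj y z) := by
    intro x hx y hy hxy z hz
    have := h4 x hx y hy hxy z hz
    have hxz : x ≠ z := fun h => hz (h ▸ hx)
    have hyz : y ≠ z := fun h => hz (h ▸ hy)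
    simp only [Gn, SimpleGraph.compl_adj, ne_eq, hxz, hyz, not_false_eq_true, true_and] at this
    exact not_iff_not.1 this
  let B₁ : Finset (Fin n) := Finset.univ.filter fun i => β i ∈ X
  let B₂ : Finset (Fin n) := Finset.univ.filter fun i => β i ∉ X
  have hB₁ : (X ∩ ((Finset.univ.map ⟨β, hβ⟩ : Finset (Vx n)) : Set (Vx n))).ncard = B₁.card := by
    rw [← Set.ncard_coe_finset B₁, ← Set.ncard_image_of_injective _ hβ]
    congr 1
    ext x
    simp only [Set.mem_inter_iff, Finset.coe_map, Function.Embedding.coeFn_mk, Set.mem_image,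
      Finset.coe_univ, Set.image_univ, Set.mem_range, B₁, Finset.coe_filter, Finset.mem_univ,
      true_and, Set.mem_ofPred_eq]
    constructor
    · rintro ⟨hx, i, rfl⟩
      exact ⟨i, hx, rfl⟩
    · rintro ⟨i, hi, rfl⟩
      exact ⟨hi, i, rfl⟩
  rw [hB₁] at h1 h2
  have hB : B₁.card + B₂.card = n := by
    have := Finset.card_filter_add_card_filter_not (s := (Finset.univ : Finset (Fin n)))
      (fun i => β i ∈ X)
    simpa using this
  have hB₂ : k + 1 ≤ B₂.card := by simp only [n] at hB; omega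
  -- the subdivision vertex of a pair
  let σ : Fin n → Fin n → Vx n := fun i j => .inr (.inr (min i j, max i j))
  have hσ : ∀ i j m : Fin n, i ≠ j → ((D n).Adj (β m) (σ i j) ↔ m = i ∨ m = j) := by
    intro i j m hij
    have : (D n).Adj (β m) (σ i j) ↔ min i j < max i j ∧ (m = min i j ∨ m = max i j) := Iff.rfl
    rw [this]
    rcases lt_or_gt_of_ne hij with h | h
    · rw [min_eq_left h.le, max_eq_right h.le]
      exact ⟨fun h => h.2, fun h' => ⟨h, h'⟩⟩
    · rw [min_eq_right h.le, max_eq_left h.le]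
      exact ⟨fun h => h.2.symm, fun h' => ⟨h, h'.symm⟩⟩
  have hB₁m : ∀ i, i ∈ B₁ ↔ β i ∈ X := by simp [B₁]
  have hB₂m : ∀ i, i ∈ B₂ ↔ β i ∉ X := by simp [B₂]
  have hdisj : ∀ i ∈ B₁, ∀ j ∈ B₂, i ≠ j := by
    rintro i hi j hj rfl
    exact (hB₂m i).1 hj ((hB₁m i).1 hi)
  by_cases hall : ∀ j ∈ B₂, ∃ i ∈ B₁, σ i j ∈ X
  · -- the vertices `σ i j` have different neighbourhoods
    choose! ι hι1 hι2 using hall
    have hinj : Set.InjOn (fun j => c (σ (ι j) j)) (B₂ : Set (Fin n)) := by
      intro j hj j' hj' hjj'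
      by_contra hne
      have hj1 := Finset.mem_coe.1 hj
      have hj1' := Finset.mem_coe.1 hj'
      have := h4' _ (hι2 j hj1) _ (hι2 j' hj1') hjj' (β j) ((hB₂m j).1 hj1)
      rw [SimpleGraph.adj_comm, hσ _ _ _ (hdisj _ (hι1 j hj1) _ hj1), SimpleGraph.adj_comm,
        hσ _ _ _ (hdisj _ (hι1 j' hj1') _ hj1')] at this
      rcases this.1 (Or.inr rfl) with h | h
      · exact hdisj _ (hι1 j' hj1') _ hj1 h.symm
      · exact hne h
    have := Finset.card_le_card_of_injOn (s := B₂) (t := (Finset.univ : Finset (Fin k)))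
      (fun j => c (σ (ι j) j)) (fun _ _ => Finset.mem_coe.2 (Finset.mem_univ _)) hinj
    simp at this
    omega
  · -- some `j` sees all of `B₁` outside `X`
    push Not at hall
    obtain ⟨j, hj, hjX⟩ := hall
    have hinj : Set.InjOn (fun i => c (β i)) (B₁ : Set (Fin n)) := by
      intro i hi i' hi' hii'
      by_contra hne
      have hi1 := Finset.mem_coe.1 hi
      have hi1' := Finset.mem_coe.1 hi'
      have := h4' _ ((hB₁m i).1 hi1) _ ((hB₁m i').1 hi1') hii' (σ i j) (hjX i hi1)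
      rw [hσ _ _ _ (hdisj _ hi1 _ hj), hσ _ _ _ (hdisj _ hi1 _ hj)] at this
      rcases this.1 (Or.inl rfl) with h | h
      · exact hne h.symm
      · exact hdisj _ hi1' _ hj h
    have := Finset.card_le_card_of_injOn (s := B₁) (t := (Finset.univ : Finset (Fin k)))
      (fun i => c (β i)) (fun _ _ => Finset.mem_coe.2 (Finset.mem_univ _)) hinj
    simp at this
    omega

/-- There is no constant `c` such that every (claw, `4K₁`, bridge)-free graph is perfect or has
clique-width at most `c`. -/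
theorem result : ¬ ∃ c : ℕ, ∀ (V : Type) (_ : Fintype V) (G : SimpleGraph V),
    ¬ claw.IsIndContained G → ¬ (⊥ : SimpleGraph (Fin 4)).IsIndContained G →
    ¬ bridge.IsIndContained G → IsPerfect G ∨ CliqueWidthAtMost G c := by
  rintro ⟨c, h⟩
  rcases h (Vx (3 * c + 3)) inferInstance (Gn (3 * c + 3)) (Gn_claw _) (Gn_fourK1 _)
    (Gn_bridge _) with h1 | h1
  · exact Gn_not_perfect _ h1
  · exact Gn_width c h1

end Pool.Agent.Results.MP_0c56be_co.UnboundedCliqueWidth
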